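import Pool.Agent.Results.MP_df084a_an.NoConstant

set_option maxHeartbeats 400000

/-!
# The exact excess in the discrete Dieudonné–Schwarz problem
-/

namespace Pool.Agent.Results.MP_df084a_an.SharpExcess

open Complex Filter Topology
open Pool.Agent.Results.MP_df084a_an.NoConstant

/-- The pair `(z, q)` occurs as `(|Z_v|, f^#(v))` for a discrete analytic function
`f : P_K → P` with `f(0) = 0` (in the sense of `NoConstant`) whose image packing `P` is
moreover univalent. -/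
def Occurs (z q : ℝ) : Prop :=
  ∃ (V : Type) (_ : Fintype V) (K : OComplex V) (v₀ v : V)
    (Z : V → ℂ) (r : V → ℝ) (W : V → ℂ) (ρ : V → ℝ),
    K.IsClosedDisc ∧ ¬ K.IsBoundary v₀ ∧
    IsMaximalPacking K Z r ∧ Z v₀ = 0 ∧
    IsPacking K W ρ ∧ W v₀ = 0 ∧
    (∀ x y, x ≠ y → ρ x + ρ y ≤ ‖W x - W y‖) ∧
    ‖Z v‖ = z ∧ ρ v / r v = q

section
variable (N : ℕ) (s R : ℝ) (u : ℕ → ℝ) (hR : 0 < R)
  (hmono : ∀ i, u i < u (i + 1)) (hlt : ∀ i, u i < s)
  (htan : ∀ i, (s - u (i + 1)) * (s - u i) = R * (u (i + 1) - u i))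
include hR hmono hlt htan

/-- The circles of the explicit packings have mutually disjoint interiors. -/
lemma univ_of (x y : Vx N) (hxy : x ≠ y) :
    rad N R u x + rad N R u y ≤ ‖ctr N s R u x - ctr N s R u y‖ := by
  have hmon : StrictMono u := strictMono_nat_of_lt_succ hmono
  have h1 := touch_ab N s R u hR hmono hlt htan
  have h2 := touch_aw N s R u hR hmono hlt htan
  have sym : ∀ x y : Vx N, rad N R u x + rad N R u y ≤ ‖ctr N s R u x - ctr N s R u y‖ →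
      rad N R u y + rad N R u x ≤ ‖ctr N s R u y - ctr N s R u x‖ := by
    intro x y h
    rw [norm_sub_rev, add_comm]; exact h
  have hww : ∀ i j : Fin (N + 1), (i : ℕ) < j → rad N R u (.inr i) + rad N R u (.inr j) ≤
      ‖ctr N s R u (.inr i) - ctr N s R u (.inr j)‖ := by
    intro i j hij
    have h3 : u (i + 1) ≤ u j := hmon.monotone hij
    have h4 : (ctr N s R u (.inr i) - ctr N s R u (.inr j)) =
        ⟨(u i + u (i + 1)) / 2 - (u j + u (j + 1)) / 2, 0⟩ := by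
      apply Complex.ext <;> simp [ctr]
    rw [h4, NoConstant.norm_real]
    have h5 := neg_abs_le ((u i + u (i + 1)) / 2 - (u j + u (j + 1)) / 2)
    have h6 := hmono i
    have h7 := hmono j
    simp only [rad, Sum.elim_inr]
    linarith
  revert hxy
  rcases x with (_ | _) | x <;> rcases y with (_ | _) | y <;> intro hxy
  · exact absurd rfl hxy
  · exact sym _ _ h1.ge
  · exact (h2 _ _).ge
  · exact h1.ge
  · exact absurd rfl hxy
  · exact (h2 _ _).ge
  · exact sym _ _ (h2 _ _).ge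
  · exact sym _ _ (h2 _ _).ge
  · rcases lt_trichotomy (x : ℕ) (y : ℕ) with h | h | h
    · exact hww _ _ h
    · exact absurd (congrArg Sum.inr (Fin.ext h)) hxy
    · exact sym _ _ (hww _ _ h)

end

/-- The radius and the position of the circle number `m + j` of the chain. -/
noncomputable def rd (m : ℕ) (s : ℝ) (j : ℕ) : ℝ := (U m s (m + j + 1) - U m s (m + j)) / 2

noncomputable def ps (m : ℕ) (s : ℝ) (j : ℕ) : ℝ := (U m s (m + j) + U m s (m + j + 1)) / 2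

section
variable (m : ℕ) (s : ℝ) (h0 : 0 < s) (h1 : s < 1) (hm : 2 * ((m : ℝ) + 1) * s ≤ s ^ 2 + 1)
include h0 h1 hm

lemma rd_eq (j : ℕ) : rd m s j =
    s ^ 2 * (1 - s ^ 2) / ((1 - s + 2 * (j * s)) * (1 + s + 2 * (j * s))) := by
  have e1 : D m s (m + j) = 1 - s + 2 * (j * s) := by
    unfold D; push_cast; ring
  have e2 : D m s (m + j + 1) = 1 + s + 2 * (j * s) := by
    rw [D_succ, e1]; ring
  unfold rd
  rw [rad_eq m s h0 h1 hm, e1, e2]

lemma rd_pos (j : ℕ) : 0 < rd m s j := by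
  have := U_mono m s h0 h1 hm (m + j)
  unfold rd
  linarith

/-- `j² · radius → (1 - s²)/4`. -/
lemma rd_tendsto : Tendsto (fun j : ℕ => (j : ℝ) ^ 2 * rd m s j) atTop
    (𝓝 ((1 - s ^ 2) / 4)) := by
  have a1 : Tendsto (fun j : ℕ => (1 - s) / (j : ℝ)) atTop (𝓝 0) :=
    tendsto_const_div_atTop_nhds_zero_nat _
  have a2 : Tendsto (fun j : ℕ => (1 + s) / (j : ℝ)) atTop (𝓝 0) :=
    tendsto_const_div_atTop_nhds_zero_nat _
  have a3 : Tendsto (fun j : ℕ => s ^ 2 * (1 - s ^ 2) /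
      (((1 - s) / (j : ℝ) + 2 * s) * ((1 + s) / (j : ℝ) + 2 * s))) atTop
      (𝓝 (s ^ 2 * (1 - s ^ 2) / ((0 + 2 * s) * (0 + 2 * s)))) := by
    apply Tendsto.div tendsto_const_nhds
      ((a1.add tendsto_const_nhds).mul (a2.add tendsto_const_nhds))
    positivity
  have e : s ^ 2 * (1 - s ^ 2) / ((0 + 2 * s) * (0 + 2 * s)) = (1 - s ^ 2) / 4 := by
    field_simp
    ring
  rw [e] at a3
  refine a3.congr' ?_
  filter_upwards [eventually_ge_atTop 1] with j hj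
  have hj' : (0 : ℝ) < j := by exact_mod_cast hj
  rw [rd_eq m s h0 h1 hm]
  have b1 : 0 < 1 - s + 2 * (j * s) := by
    have := mul_pos hj' h0
    linarith
  have b2 : 0 < 1 + s + 2 * (j * s) := by
    have := mul_pos hj' h0
    linarith
  have c1 : (1 - s) / (j : ℝ) + 2 * s = (1 - s + 2 * (j * s)) / j := by
    field_simp
  have c2 : (1 + s) / (j : ℝ) + 2 * s = (1 + s + 2 * (j * s)) / j := by
    field_simp
  rw [c1, c2]
  field_simp

lemma U_tendsto (k : ℕ) : Tendsto (fun j : ℕ => U m s (m + j + k)) atTop (𝓝 s) := by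
  have a1 : Tendsto (fun j : ℕ => s * (1 - s ^ 2) / D m s (m + j + k)) atTop (𝓝 0) := by
    apply Tendsto.div_atTop tendsto_const_nhds
    have : Tendsto (fun j : ℕ => (1 - s + 2 * k * s) + (j : ℝ) * (2 * s)) atTop atTop := by
      apply tendsto_atTop_add_const_left
      exact tendsto_natCast_atTop_atTop.atTop_mul_const (by linarith)
    refine this.congr ?_
    intro j
    unfold D
    push_cast
    ring
  have a2 := (tendsto_const_nhds (x := s)).sub a1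
  rw [sub_zero] at a2
  exact a2

lemma ps_tendsto : Tendsto (fun j : ℕ => ps m s j) atTop (𝓝 s) := by
  have a1 := U_tendsto m s h0 h1 hm 0
  have a2 := U_tendsto m s h0 h1 hm 1
  have a3 := (a1.add a2).div_const 2
  have e : (s + s) / 2 = s := by ring
  rw [e] at a3
  exact a3

lemma ps_lt (j : ℕ) : ps m s j < s := by
  have k3 := U_lt m s h0 h1 hm (m + j)
  have k4 := U_lt m s h0 h1 hm (m + j + 1)
  unfold ps
  linarith

lemma ps_nonneg (j : ℕ) : 0 ≤ ps m s j := by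
  have hmon : StrictMono (U m s) := strictMono_nat_of_lt_succ (U_mono m s h0 h1 hm)
  have k1 : U m s m ≤ U m s (m + j) := hmon.monotone (by omega)
  have k2 : U m s (m + 1) ≤ U m s (m + j + 1) := hmon.monotone (by omega)
  rw [U_m m s h0 h1 hm] at k1
  rw [U_m1 m s h0 h1 hm] at k2
  unfold ps
  linarith

end

lemma occurs (m : ℕ) (hm1 : 1 ≤ m) (t : ℝ) (ht0 : 0 < t) (ht1 : t < 1)
    (hte : 2 * ((m : ℝ) + 1) * t = t ^ 2 + 1)
    (s : ℝ) (hs0 : 0 < s) (hs1 : s < 1) (hsm : 2 * ((m : ℝ) + 1) * s ≤ s ^ 2 + 1) (j : ℕ) :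
    Occurs (ps m t j) (rd m s j / rd m t j) := by
  have hN : 1 ≤ m + j := by omega
  have htm := hte.le
  refine ⟨Vx (m + j), inferInstance, KN (m + j) hN, .inr ⟨m, by omega⟩, .inr ⟨m + j, by omega⟩,
    _, _, _, _, isClosedDisc _ hN, not_bdry _ hN _ hm1, U_maximal m t ht0 ht1 htm hte (m + j) hN,
    U_center m t ht0 ht1 htm _ _ rfl, U_packing m s hs0 hs1 hsm (m + j) hN,
    U_center m s hs0 hs1 hsm _ _ rfl, ?_, ?_, rfl⟩
  · intro x y hxy
    exact univ_of (m + j) s _ _ (by nlinarith) (U_mono m s hs0 hs1 hsm) (U_lt m s hs0 hs1 hsm)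
      (U_tan m s hs0 hs1 hsm) x y hxy
  · change ‖(⟨(U m t (m + j) + U m t (m + j + 1)) / 2, 0⟩ : ℂ)‖ = _
    rw [NoConstant.norm_real]
    exact abs_of_nonneg (ps_nonneg m t ht0 ht1 htm j)

/-- The limit values `(t, 1 / (1 - t²))`. -/
lemma limit_values (m : ℕ) (hm1 : 1 ≤ m) (t : ℝ) (ht0 : 0 < t) (ht1 : t < 1)
    (hte : 2 * ((m : ℝ) + 1) * t = t ^ 2 + 1) (ε : ℝ) (hε : 0 < ε) :
    ∃ z q : ℝ, z < t ∧ t - ε < z ∧ |q - 1 / (1 - t ^ 2)| < ε ∧ Occurs z q := by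
  have htm := hte.le
  have h1t : 0 < 1 - t ^ 2 := by nlinarith
  -- the choice of `s`
  set s : ℝ := min (t / 2) (ε * (1 - t ^ 2) / 2) with hs
  have hs0 : 0 < s := lt_min (by linarith) (by positivity)
  have hst : s ≤ t / 2 := min_le_left _ _
  have hsε : s ≤ ε * (1 - t ^ 2) / 2 := min_le_right _ _
  have hs1 : s < 1 := by linarith
  have hsm : 2 * ((m : ℝ) + 1) * s ≤ s ^ 2 + 1 := by
    have h2 : 2 * ((m : ℝ) + 1) * s ≤ 2 * ((m : ℝ) + 1) * (t / 2) :=
      mul_le_mul_of_nonneg_left hst (by positivity)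
    nlinarith [sq_nonneg s]
  -- the ratio
  have r1 := rd_tendsto m s hs0 hs1 hsm
  have r2 := rd_tendsto m t ht0 ht1 htm
  have r3 := r1.div r2 (by positivity)
  have e3 : (1 - s ^ 2) / 4 / ((1 - t ^ 2) / 4) = (1 - s ^ 2) / (1 - t ^ 2) := by
    field_simp
  rw [e3] at r3
  have r4 : Tendsto (fun j : ℕ => rd m s j / rd m t j) atTop
      (𝓝 ((1 - s ^ 2) / (1 - t ^ 2))) := by
    refine r3.congr' ?_
    filter_upwards [eventually_ge_atTop 1] with j hj
    have hj' : (0 : ℝ) < j := by exact_mod_cast hj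
    have := rd_pos m t ht0 ht1 htm j
    simp only [Pi.div_apply]
    rw [mul_div_mul_left _ _ (by positivity)]
  have hclose : |(1 - s ^ 2) / (1 - t ^ 2) - 1 / (1 - t ^ 2)| < ε := by
    have e5 : (1 - s ^ 2) / (1 - t ^ 2) - 1 / (1 - t ^ 2) = - (s ^ 2 / (1 - t ^ 2)) := by
      field_simp
      ring
    rw [e5, abs_neg, abs_of_pos (by positivity), div_lt_iff₀ h1t]
    have : s ^ 2 < s := by nlinarith
    nlinarith [mul_pos hε h1t]
  have ev1 : ∀ᶠ j : ℕ in atTop, |rd m s j / rd m t j - 1 / (1 - t ^ 2)| < ε := by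
    have := (r4.sub_const (1 / (1 - t ^ 2))).abs
    exact this.eventually (gt_mem_nhds hclose)
  have ev2 : ∀ᶠ j : ℕ in atTop, t - ε < ps m t j :=
    (ps_tendsto m t ht0 ht1 htm).eventually (lt_mem_nhds (by linarith))
  obtain ⟨j, hj1, hj2⟩ := (ev1.and ev2).exists
  exact ⟨_, _, ps_lt m t ht0 ht1 htm j, hj2, hj1,
    occurs m hm1 t ht0 ht1 hte s hs0 hs1 hsm j⟩

/-- Facts about `t_n = n - √(n² - 1)`. -/
lemma tn_facts (n : ℕ) (hn : 2 ≤ n) :
    0 < (n : ℝ) - Real.sqrt ((n : ℝ) ^ 2 - 1) ∧ (n : ℝ) - Real.sqrt ((n : ℝ) ^ 2 - 1) < 1 ∧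
    2 * (n : ℝ) * ((n : ℝ) - Real.sqrt ((n : ℝ) ^ 2 - 1)) =
      ((n : ℝ) - Real.sqrt ((n : ℝ) ^ 2 - 1)) ^ 2 + 1 := by
  have hn2 : (2 : ℝ) ≤ n := by exact_mod_cast hn
  set q : ℝ := Real.sqrt ((n : ℝ) ^ 2 - 1) with hq
  have hq2 : q ^ 2 = (n : ℝ) ^ 2 - 1 := Real.sq_sqrt (by nlinarith)
  have hq0 : 0 ≤ q := Real.sqrt_nonneg _
  refine ⟨by nlinarith, ?_, by linear_combination -hq2⟩
  have : (n : ℝ) - 1 < q := by
    by_contra h
    push Not at h
    nlinarith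
  linarith

theorem result :
    -- (1) near the radii `t_n = n - √(n² - 1)` the ratio function comes arbitrarily close to
    -- the value `1 / (1 - t_n²)` of the Schwarz–Pick lemma
    (∀ n : ℕ, 2 ≤ n → ∀ ε : ℝ, 0 < ε → ∃ z q : ℝ,
      |z - ((n : ℝ) - Real.sqrt ((n : ℝ) ^ 2 - 1))| < ε ∧
      |q - 1 / (1 - ((n : ℝ) - Real.sqrt ((n : ℝ) ^ 2 - 1)) ^ 2)| < ε ∧ Occurs z q) ∧
    -- (2) for every `C ≤ 1/3` the value `1 + C² / (1 + 3 C)²` is reached in `|z| ≤ C`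
    (∀ C : ℝ, 0 < C → C ≤ 1 / 3 → ∃ z q : ℝ, z ≤ C ∧ 1 + (C / (1 + 3 * C)) ^ 2 ≤ q ∧
      Occurs z q) ∧
    -- (3) in particular the answer to Q1 is negative
    ¬ ∃ C : ℝ, 0 < C ∧
      ∀ (V : Type) [Fintype V] (K : OComplex V), K.IsClosedDisc →
      ∀ v₀ : V, ¬ K.IsBoundary v₀ →
      ∀ (Z : V → ℂ) (r : V → ℝ), IsMaximalPacking K Z r → Z v₀ = 0 →
      ∀ (W : V → ℂ) (ρ : V → ℝ), IsPacking K W ρ → W v₀ = 0 →
      (∀ x y, x ≠ y → ρ x + ρ y ≤ ‖W x - W y‖) →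
      ∀ v : V, ‖Z v‖ ≤ C → ρ v / r v ≤ 1 := by
  have key : ∀ C : ℝ, 0 < C → C ≤ 1 / 3 → ∃ z q : ℝ, z ≤ C ∧
      1 + (C / (1 + 3 * C)) ^ 2 ≤ q ∧ Occurs z q := by
    intro C hC hC3
    -- the least `n` with `1 / (2 n - 1) ≤ C`
    set n : ℕ := ⌈(1 / C + 1) / 2⌉₊ with hn
    have hn1 : (1 / C + 1) / 2 ≤ n := Nat.le_ceil _
    have hn3 : (n : ℝ) < (1 / C + 1) / 2 + 1 := Nat.ceil_lt_add_one (by positivity)
    have hC' : 3 ≤ 1 / C := by
      rw [le_div_iff₀ hC]; linarith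
    have hn2 : (2 : ℝ) ≤ n := by linarith
    have hn2' : 2 ≤ n := by exact_mod_cast hn2
    obtain ⟨t0, t1, te⟩ := tn_facts n hn2'
    set t : ℝ := (n : ℝ) - Real.sqrt ((n : ℝ) ^ 2 - 1) with ht
    -- `t ≤ 1 / (2 n - 1) ≤ C`
    have ht2 : t * (2 * n - 1) ≤ 1 := by nlinarith
    have hCn : 1 ≤ C * (2 * n - 1) := by
      have h3 : 1 / C ≤ 2 * n - 1 := by linarith
      have := mul_le_mul_of_nonneg_left h3 hC.le
      rwa [mul_one_div_cancel hC.ne'] at this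
    have htC : t ≤ C := by
      have h4 : (0 : ℝ) < 2 * n - 1 := by linarith
      by_contra hcon
      push Not at hcon
      have := mul_lt_mul_of_pos_right hcon h4
      linarith
    -- `t ≥ 1 / (2 n) > C / (1 + 3 C)`
    have ht3 : 1 ≤ 2 * n * t := by rw [te]; nlinarith [sq_nonneg t]
    have hn4 : 2 * (n : ℝ) * C < 1 + 3 * C := by
      have h5 : 2 * (n : ℝ) < 1 / C + 3 := by linarith
      have := mul_lt_mul_of_pos_right h5 hC
      have h6 : (1 / C + 3) * C = 1 + 3 * C := by field_simp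
      linarith
    have htC2 : C / (1 + 3 * C) ≤ t := by
      rw [div_le_iff₀ (by positivity)]
      have h7 : C * 1 ≤ C * (2 * n * t) := mul_le_mul_of_nonneg_left ht3 hC.le
      have h8 : (2 * (n : ℝ) * C) * t ≤ (1 + 3 * C) * t :=
        mul_le_mul_of_nonneg_right hn4.le t0.le
      nlinarith
    have h1t : 0 < 1 - t ^ 2 := by nlinarith
    have hgap : 0 < 1 / (1 - t ^ 2) - (1 + t ^ 2) := by
      have e : 1 / (1 - t ^ 2) - (1 + t ^ 2) = t ^ 4 / (1 - t ^ 2) := by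
        field_simp
        ring
      rw [e]
      positivity
    obtain ⟨m, hm⟩ : ∃ m, n = m + 1 := ⟨n - 1, by omega⟩
    have hmn : (n : ℝ) = (m : ℝ) + 1 := by rw [hm]; push_cast; ring
    obtain ⟨z, q, hz, -, hq, ho⟩ := limit_values m (by omega) t t0 t1
      (by rw [← hmn]; exact te) _ hgap
    refine ⟨z, q, by linarith, ?_, ho⟩
    have h9 := (abs_lt.1 hq).1
    have h10 : (C / (1 + 3 * C)) ^ 2 ≤ t ^ 2 := pow_le_pow_left₀ (by positivity) htC2 2
    linarith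
  refine ⟨?_, key, ?_⟩
  · intro n hn ε hε
    obtain ⟨t0, t1, te⟩ := tn_facts n hn
    obtain ⟨m, rfl⟩ : ∃ m, n = m + 1 := ⟨n - 1, by omega⟩
    obtain ⟨z, q, hz, hz2, hq, ho⟩ := limit_values m (by omega) _ t0 t1
      (by push_cast at te ⊢; exact te) ε hε
    refine ⟨z, q, ?_, hq, ho⟩
    rw [abs_lt]
    constructor <;> linarith
  · rintro ⟨C, hC, H⟩
    obtain ⟨z, q, hz, hq, V, fV, K, v₀, v, Z, r, W, ρ, hK, hv₀, hmax, hZ, hP, hW, hu, hzv, hqv⟩ :=
      key (min C (1 / 3)) (lt_min hC (by norm_num)) (min_le_right _ _)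
    have := H V K hK v₀ hv₀ Z r hmax hZ W ρ hP hW hu v (by rw [hzv]; exact hz.trans (min_le_left _ _))
    rw [hqv] at this
    have hpos : 0 < (min C (1 / 3) / (1 + 3 * min C (1 / 3))) ^ 2 := by
      have : 0 < min C (1 / 3) := lt_min hC (by norm_num)
      positivity
    linarith

end Pool.Agent.Results.MP_df084a_an.SharpExcess
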